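import Mathlib
import Pool.Agent.HuaVal.Lin
import Pool.Agent.HuaVal.Quad

/-!
# Lemma W: a weak form of the vanishing of the third difference implies the vanishing

If `T3 (u, x, e) x = 0` for all `u, x` and all units `e`, then all third differences vanish
(in exponent two and without two-torsion).
-/

set_option autoImplicit false

namespace Pool.Agent.Hua86

open Pool.Agent.HuaVal

section

variable {A : Type*} [AddCommGroup A] {J : A → A → A}

lemma T3_eq_Pl (J : A → A → A) (e x y z c : A) :
    T3 J e x y z c = Pl J e x (y + z) c - Pl J e x y c - Pl J e x z c := by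
  rw [T3, Pl, Pl, Pl, ← add_assoc]
  abel

lemma T3_comm12 (J : A → A → A) (e x y z c : A) : T3 J e x y z c = T3 J e y x z c := by
  rw [T3, T3, add_comm x y]
  abel

lemma T3_comm23 (J : A → A → A) (e x y z c : A) : T3 J e x y z c = T3 J e x z y c := by
  rw [T3, T3, add_right_comm x y z, add_comm y z]
  abel

lemma H_chg (hJ : JSys J) {e b : A} (hb : b ≠ 0) (x c : A) :
    H J e x c = H J b x (H J e b c) := by
  rw [H_of_ne (x := b) hb]
  exact (H_change hJ hb).symm

lemma T3_change (hJ : JSys J) {e b : A} (hb : b ≠ 0) (x y z c : A) :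
    T3 J e x y z c = T3 J b x y z (H J e b c) := by
  rw [T3, T3, ← H_chg hJ hb, ← H_chg hJ hb, ← H_chg hJ hb, ← H_chg hJ hb, ← H_chg hJ hb,
    ← H_chg hJ hb, ← H_chg hJ hb]

lemma T3_zero_right (J : A → A → A) (e x y c : A) : T3 J e x y 0 c = 0 := by
  simp only [T3, add_zero, H_zero_left]
  abel

/-- `U_{w,1} w = 2 w²` -/
lemma Pl_unit_self (hJ : JSys J) {e : A} (he : e ≠ 0) (w : A) :
    Pl J e w e w = H J e w e + H J e w e := by
  by_cases hw : w = 0
  · rw [hw, Pl, H_zero_right hJ he, H_zero_left, H_zero_right hJ he, H_zero_left]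
    simp
  have h1 : Pl J e (J e w) e w = e + e := by
    have h := H_inv_self hJ he (J e w)
    rw [hJ.inv e w he] at h
    rw [Pl, add_comm (J e w) e, H_add_i hJ he e w hw, h, H_self hJ he]
    abel
  rw [Pl_inv hJ he hw he w, hJ.self e he, H_self hJ he, h1, H_add hJ he]

/-- the defect `D (u; x) = U_{u,1} x - U_{u,x} 1` -/
noncomputable def DW (J : A → A → A) (e u x : A) : A := Pl J e u e x - Pl J e u x e

/-- the antisymmetry of the defect -/
lemma DW_symm (hJ : JSys J) {e : A} (he : e ≠ 0) (u x : A) :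
    DW J e u x + DW J e x u = -(T3 J e u x e u + T3 J e u x e x) := by
  have h := Pl_unit_self hJ he (u + x)
  have h1 := Pl_unit_self hJ he u
  have h2 := Pl_unit_self hJ he x
  rw [Pl, H_add hJ he, H_add hJ he, H_add hJ he] at h
  rw [Pl] at h1 h2
  rw [DW, DW, T3, T3, Pl, Pl, Pl, Pl, add_comm x u]
  linear_combination (norm := abel) h - h1 - h2

/-- the first additivity defect -/
lemma DW_add_left (J : A → A → A) (e u v x : A) :
    DW J e (u + v) x - DW J e u x - DW J e v x = T3 J e u v e x - T3 J e u v x e := by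
  rw [DW, DW, DW, T3, T3, Pl, Pl, Pl, Pl, Pl, Pl]
  abel

/-- the second additivity defect -/
lemma DW_add_right (hJ : JSys J) {e : A} (he : e ≠ 0) (x u v : A) :
    DW J e x (u + v) - DW J e x u - DW J e x v = -T3 J e u v x e := by
  rw [DW, DW, DW, T3, Pl, Pl, Pl, Pl, Pl, Pl, H_add hJ he, H_add hJ he, H_add hJ he,
    add_comm x (u + v), add_comm x u, add_comm x v]
  abel

/-- Lemma W, the main identity -/
theorem T3_unit (hJ : JSys J) {e : A} (he : e ≠ 0) (hW : ∀ u x, T3 J e u x e x = 0)
    (u v x : A) : T3 J e u v e x = T3 J e u v x e + T3 J e u v x e := by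
  have hs : ∀ u x, DW J e u x = - DW J e x u := by
    intro u x
    have h := DW_symm hJ he u x
    rw [hW u x, T3_comm12, hW x u, add_zero, neg_zero] at h
    exact eq_neg_of_add_eq_zero_left h
  have h1 := DW_add_left J e u v x
  have h2 := DW_add_right hJ he x u v
  rw [hs x (u + v), hs x u, hs x v] at h2
  linear_combination (norm := abel) -h1 - h2

/-- Lemma W in exponent two -/
theorem T3_of_W_two (hJ : JSys J) (h2 : ∀ a : A, a + a = 0)
    (hW : ∀ e, e ≠ 0 → ∀ u x, T3 J e u x e x = 0) {e : A} (x y z c : A) :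
    T3 J e x y z c = 0 := by
  by_cases hz : z = 0
  · rw [hz, T3_zero_right]
  rw [T3_change hJ hz, T3_unit hJ hz (hW z hz), h2]

end

end Pool.Agent.Hua86
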